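import Pool.Agent.Work.MP_59976d_co_even.Basic
import Pool.Agent.Work.MP_59976d_co_even.Interface
import Pool.Agent.Work.MP_59976d_co_odd.LC

/-!
Block LCaseE: fibres over a subgroup of odd prime order (even case).
-/

namespace Pool.Agent.Work.MP_59976d_co

open Finset
open scoped Pointwise

universe u

namespace LCE

section gen

variable {G : Type*} [AddCommGroup G]

/-- An element of order two is not in a subgroup of odd order. -/
lemma not_mem_of_two [Finite G] (L : AddSubgroup G) (hL : Odd (Nat.card L)) {σ : G} (h0 : σ ≠ 0)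
    (h2 : σ + σ = 0) : σ ∉ L := by
  intro h
  have h3 : (⟨σ, h⟩ : L) = 0 := by
    apply no_two_torsion hL
    ext
    simpa using h2
  exact h0 (by simpa using congrArg Subtype.val h3)

/-- Halving in a subgroup of odd order. -/
lemma exists_half [Finite G] (L : AddSubgroup G) (hL : Odd (Nat.card L)) {g : G}
    (h : g ∈ L) : ∃ l ∈ L, l + l = g := by
  obtain ⟨m, hm⟩ := hL
  refine ⟨(m + 1) • g, L.nsmul_mem h _, ?_⟩
  rw [← add_nsmul]
  have : m + 1 + (m + 1) = Nat.card L + 1 := by omega
  rw [this, add_nsmul, one_nsmul]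
  have h1 : Nat.card L • (⟨g, h⟩ : L) = 0 := card_nsmul_eq_zero'
  have h2 := congrArg Subtype.val h1
  simp only [AddSubgroup.coe_nsmul, ZeroMemClass.coe_zero] at h2
  rw [h2, zero_add]

/-- The unique involution of the quotient by a subgroup of odd order. -/
lemma uniq_quot [Finite G] (L : AddSubgroup G) (hL : Odd (Nat.card L)) {σ : G}
    (hu : ∀ w : G, w + w = 0 → w = 0 ∨ w = σ) (x : G ⧸ L) (hx : x + x = 0) :
    x = 0 ∨ x = QuotientAddGroup.mk σ := by
  obtain ⟨g, rfl⟩ := QuotientAddGroup.mk_surjective x
  rw [← QuotientAddGroup.mk_add, QuotientAddGroup.eq_zero_iff] at hx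
  obtain ⟨l, hl, hl2⟩ := exists_half L hL hx
  have h1 : g - l + (g - l) = 0 := by
    have : g - l + (g - l) = g + g - (l + l) := by abel
    rw [this, hl2, sub_self]
  have h2 : (QuotientAddGroup.mk g : G ⧸ L) = QuotientAddGroup.mk (g - l) := by
    rw [QuotientAddGroup.eq]
    have : -g + (g - l) = -l := by abel
    rw [this]
    exact L.neg_mem hl
  rcases hu _ h1 with h | h
  · left; rw [h2, h, QuotientAddGroup.mk_zero]
  · right; rw [h2, h]

/-- A set and its translate by `σ` are disjoint: two neighbouring fibres have at most `|L|`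
elements. -/
lemma card_part_add_le [Finite G] [DecidableEq G] (L : AddSubgroup G) (σ : G) (A : Finset G)
    (h2 : σ + σ = 0) (hA : ∀ a ∈ A, a + σ ∉ A) (i : G ⧸ L) :
    (part L A i).card + (part L A (i + QuotientAddGroup.mk σ)).card ≤ Nat.card L := by
  have h1 : (part L A (i + QuotientAddGroup.mk σ)).card =
      ((part L A (i + QuotientAddGroup.mk σ)).image (fun a => a + σ)).card :=
    (card_image_of_injective _ (add_left_injective σ)).symm
  rw [h1, ← card_union_of_disjoint]
  · refine le_trans ?_ (card_part_le L (A ∪ A.image (fun a => a + σ)) i)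
    apply card_le_card
    intro x hx
    rw [mem_union] at hx
    rw [mem_part]
    rcases hx with hx | hx
    · rw [mem_part] at hx
      exact ⟨mem_union_left _ hx.1, hx.2⟩
    · rw [mem_image] at hx
      obtain ⟨a, ha, rfl⟩ := hx
      rw [mem_part] at ha
      refine ⟨mem_union_right _ (mem_image_of_mem _ ha.1), ?_⟩
      rw [QuotientAddGroup.mk_add, ha.2, add_assoc, ← QuotientAddGroup.mk_add, h2,
        QuotientAddGroup.mk_zero, add_zero]
  · rw [disjoint_left]
    intro x hx hx'
    rw [mem_image] at hx'
    obtain ⟨a, ha, rfl⟩ := hx'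
    exact hA a (mem_part.1 ha).1 (mem_part.1 hx).1

/-- Two neighbouring fibres of a set meeting all `σ`-cosets have at least `|L|` elements. -/
lemma le_card_part_add [Finite G] [DecidableEq G] (L : AddSubgroup G) (σ : G) (C : Finset G)
    (h2 : σ + σ = 0) (hC : ∀ g : G, g ∈ C ∨ g + σ ∈ C) (i : G ⧸ L) :
    Nat.card L ≤ (part L C i).card + (part L C (i + QuotientAddGroup.mk σ)).card := by
  obtain ⟨g, rfl⟩ := QuotientAddGroup.mk_surjective i
  have : Fintype L := Fintype.ofFinite L
  have h3 : (part L C (QuotientAddGroup.mk g + QuotientAddGroup.mk σ)).card =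
      ((part L C (QuotientAddGroup.mk g + QuotientAddGroup.mk σ)).image (fun a => a + σ)).card :=
    (card_image_of_injective _ (add_left_injective σ)).symm
  rw [h3, Nat.card_eq_fintype_card, ← card_univ]
  refine le_trans ?_ (card_union_le _ _)
  apply card_le_card_of_injOn (fun l : L => g + (l : G))
  · intro l _
    rw [mem_coe, mem_union, mem_part, mem_image]
    have hl : (QuotientAddGroup.mk (g + (l : G)) : G ⧸ L) = QuotientAddGroup.mk g := by
      rw [eq_comm, QuotientAddGroup.eq, neg_add_cancel_left]
      exact l.2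
    rcases hC (g + l) with h | h
    · left; exact ⟨h, hl⟩
    · right
      refine ⟨g + l + σ, mem_part.2 ⟨h, ?_⟩, ?_⟩
      · rw [QuotientAddGroup.mk_add, hl]
      · rw [add_assoc, h2, add_zero]
  · intro a _ b _ hab
    exact Subtype.ext (add_left_cancel hab)

/-- If the Cauchy-Davenport bound fails for the restricted sum of two fibres over the same class
then some double is lost. -/
lemma exists_lost [DecidableEq G] (L : AddSubgroup G)
    (hL : (Nat.card L).Prime) (A B : Finset G) (k : G ⧸ L)
    (hi : 1 ≤ (part L A k).card) (hj : 1 ≤ (part L B k).card)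
    (hlt : (part L (rs A B) (k + k)).card <
      min (Nat.card L) ((part L A k).card + (part L B k).card - 1)) :
    ∃ d, d ∈ A ∧ d ∈ B ∧ d + d ∉ rs A B ∧ (QuotientAddGroup.mk d : G ⧸ L) = k := by
  by_contra hno
  push Not at hno
  have : Fact (Nat.card L).Prime := ⟨hL⟩
  obtain ⟨f, hf, hfL⟩ := exists_zmod_hom L hL
  obtain ⟨g, rfl⟩ := QuotientAddGroup.mk_surjective k
  rw [← not_le] at hlt
  apply hlt
  rw [← card_pullf hf hfL] at hi hj
  rw [← card_pullf hf hfL, ← card_pullf hf hfL, ← QuotientAddGroup.mk_add,
    ← card_pullf hf hfL (g + g)]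
  refine (ZMod.cauchy_davenport hL (card_pos.1 hi) (card_pos.1 hj)).trans ?_
  apply card_le_card
  intro z hz
  rw [mem_add] at hz
  obtain ⟨s, hs, t, ht, rfl⟩ := hz
  rw [mem_pullf] at hs ht ⊢
  have e : g + g + f (s + t) = (g + f s) + (g + f t) := by rw [map_add]; abel
  rw [e]
  by_cases hst : g + f s = g + f t
  · rw [← hst] at ht ⊢
    by_contra hnot
    apply hno (g + f s) hs ht hnot
    rw [eq_comm, QuotientAddGroup.eq, neg_add_cancel_left]
    exact (hfL _).2 ⟨s, rfl⟩
  · rw [mem_rs]
    exact ⟨_, hs, _, ht, hst, rfl⟩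

/-- Q1 in the union of two neighbouring cosets, recentred at a uniquely represented lost sum. -/
lemma two_cosets [DecidableEq G] (L : AddSubgroup G) (σ : G) (h2 : σ + σ = 0) (hσ : σ ∉ L)
    (hM : RestrictedScherk ((AddSubgroup.zmultiples (QuotientAddGroup.mk σ : G ⧸ L)).comap
      (QuotientAddGroup.mk' L)))
    (A B : Finset G) (d : G) (hA : d ∈ A) (hB : d ∈ B)
    (hu : ∀ a ∈ A, d + d - a ∈ B → a = d) (k : G ⧸ L) (hk : (QuotientAddGroup.mk d : G ⧸ L) = k) :
    (part L A k).card + (part L A (k + QuotientAddGroup.mk σ)).card +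
      ((part L B k).card + (part L B (k + QuotientAddGroup.mk σ)).card) ≤
    (part L (rs A B) (k + k)).card + (part L (rs A B) (k + k + QuotientAddGroup.mk σ)).card + 3 := by
  classical
  set τ : G ⧸ L := QuotientAddGroup.mk σ with hτ
  have hτ0 : τ ≠ 0 := fun h => hσ ((QuotientAddGroup.eq_zero_iff σ).1 h)
  have hτ2 : τ + τ = 0 := by rw [hτ, ← QuotientAddGroup.mk_add, h2, QuotientAddGroup.mk_zero]
  set M := (AddSubgroup.zmultiples τ).comap (QuotientAddGroup.mk' L) with hMdef
  have hmem : ∀ x : G, x ∈ M ↔ (QuotientAddGroup.mk x : G ⧸ L) = 0 ∨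
      (QuotientAddGroup.mk x : G ⧸ L) = τ := by
    intro x
    rw [hMdef, AddSubgroup.mem_comap, mem_zm hτ2]
    rfl
  have key : ∀ (X : Finset G) (e : G), ((tr e X).filter (fun x => x ∈ M)).card =
      (part L X (QuotientAddGroup.mk e)).card + (part L X (QuotientAddGroup.mk e + τ)).card := by
    intro X e
    have h1 : (tr e X).filter (fun x => x ∈ M) =
        tr e (part L X (QuotientAddGroup.mk e) ∪ part L X (QuotientAddGroup.mk e + τ)) := by
      ext x
      rw [mem_filter, mem_tr, mem_tr, mem_union, mem_part, mem_part, hmem,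
        QuotientAddGroup.mk_add]
      constructor
      · rintro ⟨hx, h | h⟩
        · left; exact ⟨hx, by rw [h, zero_add]⟩
        · right; exact ⟨hx, by rw [h, add_comm]⟩
      · rintro (⟨hx, h⟩ | ⟨hx, h⟩)
        · exact ⟨hx, Or.inl (by simpa using h)⟩
        · refine ⟨hx, Or.inr ?_⟩
          rw [add_comm (QuotientAddGroup.mk e : G ⧸ L) τ] at h
          exact add_right_cancel h
    rw [h1, card_tr, card_union_of_disjoint]
    rw [disjoint_left]
    intro x hx hx'
    rw [mem_part] at hx hx'
    rw [hx.2] at hx'
    have := hx'.2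
    rw [left_eq_add] at this
    exact hτ0 this
  have hadm := adm_tr hA hB hu
  have hadm' : Adm ((tr d A).filter (fun x => x ∈ M)) ((tr d B).filter (fun x => x ∈ M)) := by
    refine ⟨mem_filter.2 ⟨hadm.zA, M.zero_mem⟩, mem_filter.2 ⟨hadm.zB, M.zero_mem⟩, ?_⟩
    intro a ha hb
    exact hadm.uniq a (mem_filter.1 ha).1 (mem_filter.1 hb).1
  have h3 := of_injective hM M.subtype (AddSubgroup.subtype_injective M) _ _ hadm'
    (fun a ha => ⟨⟨a, (mem_filter.1 ha).2⟩, rfl⟩) (fun a ha => ⟨⟨a, (mem_filter.1 ha).2⟩, rfl⟩)
  have h4 : rs ((tr d A).filter (fun x => x ∈ M)) ((tr d B).filter (fun x => x ∈ M)) ⊆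
      (tr (d + d) (rs A B)).filter (fun x => x ∈ M) := by
    intro x hx
    rw [mem_rs] at hx
    obtain ⟨a, ha, b, hb, hne, rfl⟩ := hx
    rw [mem_filter] at ha hb
    rw [mem_filter, ← rs_tr, mem_rs]
    exact ⟨⟨a, ha.1, b, hb.1, hne, rfl⟩, M.add_mem ha.2 hb.2⟩
  have h5 := card_le_card h4
  rw [key, key] at h3
  rw [key] at h5
  rw [QuotientAddGroup.mk_add, hk] at h5
  rw [hk] at h3
  omega

end gen

end LCE

open LCE in
/-- Block LCaseE. -/
theorem stmt_LCaseE (hLvE1 : Stmt_LvE1.{u}) (hLvE0 : Stmt_LvE0.{u}) (hLvZ : Stmt_LvZ.{u})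
    (hH6 : Stmt_H6.{u}) : Stmt_LCaseE.{u} := by
  intro G _ _ _ hsub hquo A B σ core L hL hL2 hne2p i j hi hj
  classical
  by_cases hij : i = j
  swap
  · exact part_cd L hL A B i j hij hi hj
  subst hij
  by_contra hlt
  have hLodd : Odd (Nat.card L) := hL.odd_of_ne_two hL2
  have : Fintype (G ⧸ L) := Fintype.ofFinite _
  have hσL : σ ∉ L := not_mem_of_two L hLodd core.ne core.two
  set τ : G ⧸ L := QuotientAddGroup.mk σ with hτ
  have hτ0 : τ ≠ 0 := fun h => hσL ((QuotientAddGroup.eq_zero_iff σ).1 h)
  have hτ2 : τ + τ = 0 := by rw [hτ, ← QuotientAddGroup.mk_add, core.two, QuotientAddGroup.mk_zero]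
  have hτu : ∀ x : G ⧸ L, x + x = 0 → x = 0 ∨ x = τ := uniq_quot L hLodd core.uniq
  have hLbot : L ≠ ⊥ := by
    rintro rfl
    rw [AddSubgroup.card_bot] at hL
    exact Nat.not_prime_one hL
  have hLLR : LL (G ⧸ L) := hquo L hLbot
  have hRSR : RestrictedScherk ((G ⧸ L) ⧸ AddSubgroup.zmultiples τ) :=
    (hquo.quoQuo L hLbot (AddSubgroup.zmultiples τ)).scherk
  have hMtop : (AddSubgroup.zmultiples τ).comap (QuotientAddGroup.mk' L) ≠ ⊤ := by
    intro htop
    apply hne2p
    have h1 : AddSubgroup.zmultiples τ = ⊤ := by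
      rw [eq_top_iff]
      intro x _
      obtain ⟨g, rfl⟩ := QuotientAddGroup.mk_surjective x
      have : g ∈ (AddSubgroup.zmultiples τ).comap (QuotientAddGroup.mk' L) := by
        rw [htop]; trivial
      rwa [AddSubgroup.mem_comap] at this
    have h2 : Nat.card (G ⧸ L) = 2 := by
      rw [← AddSubgroup.card_top (G := G ⧸ L), ← h1]
      exact card_zm hτ0 hτ2
    rw [AddSubgroup.card_eq_card_quotient_mul_card_addSubgroup L, h2]
  have hRSM : RestrictedScherk ((AddSubgroup.zmultiples τ).comap (QuotientAddGroup.mk' L)) :=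
    (hsub _ hMtop).scherk
  set p := Nat.card L with hp
  set α : G ⧸ L → ℕ := fun x => (part L A x).card with hα
  set β : G ⧸ L → ℕ := fun x => (part L B x).card with hβ
  set γ : G ⧸ L → ℕ := fun x => (part L (rs A B) x).card with hγ
  have F1 : ∀ x y, x ≠ y → 1 ≤ α x → 1 ≤ β y → min p (α x + β y - 1) ≤ γ (x + y) :=
    fun x y hxy hx hy => part_cd L hL A B x y hxy hx hy
  have F2 : ∀ x, 1 ≤ α x → 1 ≤ β x → p ≤ γ (x + x) ∨
      α x + β x ≤ γ (x + x) + 2 + (if α x = β x then 1 else 0) :=
    fun x hx hy => part_anr L hL hL2 A B x hx hy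
  have hαp : ∀ x, α x ≤ p := fun x => card_part_le L A x
  have hβp : ∀ x, β x ≤ p := fun x => card_part_le L B x
  have hβα : ∀ x, β x ≤ α x := fun x => card_part_mono core.ce.sub x
  have hαα : ∀ x, α x + α (x + τ) ≤ p := fun x => card_part_add_le L σ A core.two core.A1 x
  have hββ : ∀ x, β x + β (x + τ) ≤ p := fun x => card_part_add_le L σ B core.two core.B1 x
  have hγγ : ∀ x, p ≤ γ x + γ (x + τ) :=
    fun x => le_card_part_add L σ (rs A B) core.two core.C1 x
  have QM : ∀ x, 1 ≤ α x → 1 ≤ β x → γ (x + x) < min p (α x + β x - 1) →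
      α x + α (x + τ) + (β x + β (x + τ)) ≤ γ (x + x) + γ (x + x + τ) + 3 := by
    intro x hx hy hxy
    obtain ⟨d, hdA, hdB, hdl, hdx⟩ := exists_lost L hL A B x hx hy hxy
    exact two_cosets L σ core.two hσL hRSM A B d hdA hdB (core.lost d hdA hdB hdl) x hdx
  have hA : A.card = ∑ x, α x := card_eq_sum_part L A
  have hB : B.card = ∑ x, β x := card_eq_sum_part L B
  have hC : (rs A B).card = ∑ x, γ x := card_eq_sum_part L (rs A B)
  have hF := core.ce.def4
  -- recentering
  have shift : ∀ (φ : G ⧸ L → ℕ) (k : G ⧸ L),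
      φ k + ∑ x ∈ univ.erase (0 : G ⧸ L), φ (x + k) = ∑ x, φ x := by
    intro φ k
    rw [← Equiv.sum_comp (Equiv.addRight k) φ, ← Finset.add_sum_erase univ _ (mem_univ (0 : G ⧸ L))]
    simp
  by_cases hex : ∃ k, 1 ≤ α k ∧ 1 ≤ β k ∧ γ (k + k) < p ∧ γ (k + k) + 3 = α k + β k
  · obtain ⟨k, hk1, hk2, hk3, hk4⟩ := hex
    have hk5 := F2 k hk1 hk2
    have hk6 : α k = β k := by
      rcases hk5 with h | h
      · omega
      · by_contra hne
        rw [if_neg hne] at h
        omega
    have hk7 : γ (k + k) + 2 ≤ p := by
      obtain ⟨m, hm⟩ := hLodd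
      omega
    have hk8 := QM k hk1 hk2 (by omega)
    have eτ : τ + k + (τ + k) = k + k := by
      have : τ + k + (τ + k) = τ + τ + (k + k) := by abel
      rw [this, hτ2, zero_add]
    have h := hLvE1 (G ⧸ L) hLLR τ hτ0 hτ2 hτu p (α k) (fun x => α (x + k)) (fun x => β (x + k))
      (fun x => γ (x + (k + k))) (fun x => hαp _) (fun x => hβp _)
      (by omega) (by simp only [zero_add]) (by simp only [zero_add]; omega)
      (by simp only [zero_add]; omega) (by omega)
      (fun x y hxy hx hy => by
        have := F1 (x + k) (y + k) (fun h => hxy (add_right_cancel h)) hx hy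
        have e : x + k + (y + k) = x + y + (k + k) := by abel
        rw [e] at this
        exact this)
      (fun x _ _ hx hy => by
        have := F2 (x + k) hx hy
        have e : x + k + (x + k) = x + x + (k + k) := by abel
        rw [e] at this
        show min p (α (x + k) + β (x + k) - 3) ≤ γ (x + x + (k + k))
        rcases this with h | h
        · omega
        · split_ifs at h <;> omega)
      (by
        show α (τ + k) + β (τ + k) ≤ γ (τ + (k + k))
        rw [add_comm τ k, add_comm τ (k + k)]
        omega)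
      (by
        intro hx hy
        have h1 := F2 (τ + k) hx hy
        rw [eτ] at h1
        show α (τ + k) + β (τ + k) + 1 ≤ 2 * α k ∨ (α (τ + k) = α k ∧ β (τ + k) = α k)
        rcases h1 with h1 | h1
        · omega
        · split_ifs at h1 with h2
          · omega
          · omega)
    have h1 := shift α k
    have h2 := shift β k
    have h3 := shift γ (k + k)
    rw [sum_add_distrib] at h
    omega
  · push Not at hex
    have hlt' : γ (i + i) < min p (α i + β i - 1) := not_le.1 hlt
    have hi' : 1 ≤ α i := hi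
    have hj' : 1 ≤ β i := hj
    have F3 : ∀ x, 1 ≤ α x → 1 ≤ β x → min p (α x + β x - 2) ≤ γ (x + x) := by
      intro x hx hy
      by_contra hlt3
      have h1 := F2 x hx hy
      have h2 := hex x hx hy (by omega)
      rcases h1 with h | h
      · omega
      · split_ifs at h <;> omega
    have h3 := F3 i hi' hj'
    have eτ : τ + i + (τ + i) = i + i := by
      have : τ + i + (τ + i) = τ + τ + (i + i) := by abel
      rw [this, hτ2, zero_add]
    have hH1 : ∀ x y, x ≠ y → 1 ≤ α (x + i) → 1 ≤ β (y + i) →
        min p (α (x + i) + β (y + i) - 1) ≤ γ (x + y + (i + i)) := by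
      intro x y hxy hx hy
      have := F1 (x + i) (y + i) (fun h => hxy (add_right_cancel h)) hx hy
      have e : x + i + (y + i) = x + y + (i + i) := by abel
      rw [e] at this
      exact this
    have hH2 : ∀ x, x ≠ 0 → x ≠ τ → 1 ≤ α (x + i) → 1 ≤ β (x + i) →
        min p (α (x + i) + β (x + i) - 2) ≤ γ (x + x + (i + i)) := by
      intro x _ _ hx hy
      have := F3 (x + i) hx hy
      have e : x + i + (x + i) = x + x + (i + i) := by abel
      rw [e] at this
      exact this
    have s1 := shift α i
    have s2 := shift β i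
    have s3 := shift γ (i + i)
    have hQM := QM i hi' hj' hlt'
    by_cases hτc : 1 ≤ α (τ + i) ∧ 1 ≤ β (τ + i) ∧ α (τ + i) + β (τ + i) = α i + β i ∧
        γ (τ + (i + i)) < α i + β i
    · obtain ⟨c1, c2, c3, c4⟩ := hτc
      have d1 := hαα i
      have d2 := hββ i
      rw [add_comm i τ] at d1 d2
      have d3 : γ (τ + (i + i)) + 1 = α i + β i := by
        rw [add_comm i τ, add_comm (i + i) τ] at hQM
        omega
      have d4 := F1 i (τ + i) (by
        intro h
        rw [right_eq_add] at h
        exact hτ0 h) hi' c2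
      have d5 := F1 (τ + i) i (by
        intro h
        rw [add_eq_right] at h
        exact hτ0 h) c1 hj'
      have e1 : i + (τ + i) = τ + (i + i) := by abel
      have e2 : τ + i + i = τ + (i + i) := by abel
      rw [e1] at d4
      rw [e2] at d5
      have d6 : α (τ + i) = α i := by omega
      have d7 : β (τ + i) = β i := by omega
      have d8 := hγγ (i + i)
      rw [add_comm (i + i) τ] at d8
      have h := hLvZ (G ⧸ L) τ hτ0 hτ2 hτu hRSR p (fun x => α (x + i)) (fun x => β (x + i))
        (fun x => γ (x + (i + i))) (fun x => hβα _)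
        (fun x => by
          have := hαα (x + i)
          have e : x + i + τ = x + τ + i := by abel
          rw [e] at this
          exact this)
        (by simp only [zero_add]; exact hj')
        (by simp only [zero_add]; exact d6) (by simp only [zero_add]; exact d7)
        (by simp only [zero_add]; omega) (by simp only [zero_add]; omega)
        (by simp only [zero_add]; omega) (by simp only [zero_add]; omega)
        hH1 hH2
        (by
          intro x y hyx hyxτ h1 h2 h3 h4
          simp only [zero_add] at h1 h2 h3 h4 ⊢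
          -- apply H6 to two pairs of neighbouring fibres
          set X := part L A (x + i) ∪ part L A (x + i + τ) with hX
          set Y := part L B (y + i) ∪ part L B (y + i + τ) with hY
          have eX : part L X (x + i) = part L A (x + i) := by
            ext z
            rw [mem_part, hX, mem_union, mem_part, mem_part]
            constructor
            · rintro ⟨⟨h5, h6⟩ | ⟨h5, h6⟩, h7⟩
              · exact ⟨h5, h6⟩
              · exact ⟨h5, h7⟩
            · rintro ⟨h5, h6⟩
              exact ⟨Or.inl ⟨h5, h6⟩, h6⟩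
          have eX' : part L X (x + i + τ) = part L A (x + i + τ) := by
            ext z
            rw [mem_part, hX, mem_union, mem_part, mem_part]
            constructor
            · rintro ⟨⟨h5, h6⟩ | ⟨h5, h6⟩, h7⟩
              · exact ⟨h5, h7⟩
              · exact ⟨h5, h7⟩
            · rintro ⟨h5, h6⟩
              exact ⟨Or.inr ⟨h5, h6⟩, h6⟩
          have eY : part L Y (y + i) = part L B (y + i) := by
            ext z
            rw [mem_part, hY, mem_union, mem_part, mem_part]
            constructor
            · rintro ⟨⟨h5, h6⟩ | ⟨h5, h6⟩, h7⟩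
              · exact ⟨h5, h6⟩
              · exact ⟨h5, h7⟩
            · rintro ⟨h5, h6⟩
              exact ⟨Or.inl ⟨h5, h6⟩, h6⟩
          have eY' : part L Y (y + i + τ) = part L B (y + i + τ) := by
            ext z
            rw [mem_part, hY, mem_union, mem_part, mem_part]
            constructor
            · rintro ⟨⟨h5, h6⟩ | ⟨h5, h6⟩, h7⟩
              · exact ⟨h5, h7⟩
              · exact ⟨h5, h7⟩
            · rintro ⟨h5, h6⟩
              exact ⟨Or.inr ⟨h5, h6⟩, h6⟩
          have hXA : X ⊆ A := union_subset (part_subset L A _) (part_subset L A _)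
          have hYB : Y ⊆ B := union_subset (part_subset L B _) (part_subset L B _)
          have hXY : X + Y ⊆ rs A B := by
            intro z hz
            rw [mem_add] at hz
            obtain ⟨a, ha, b, hb, rfl⟩ := hz
            rw [mem_rs]
            refine ⟨a, hXA ha, b, hYB hb, ?_, rfl⟩
            rintro rfl
            rw [hX, mem_union, mem_part, mem_part] at ha
            rw [hY, mem_union, mem_part, mem_part] at hb
            rcases ha with ⟨_, ha⟩ | ⟨_, ha⟩ <;> rcases hb with ⟨_, hb⟩ | ⟨_, hb⟩
            · rw [ha] at hb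
              exact hyx (add_right_cancel hb).symm
            · rw [ha] at hb
              apply hyxτ
              have e : y + i + τ = y + τ + i := by abel
              rw [e] at hb
              rw [add_right_cancel hb, add_assoc, hτ2, add_zero]
            · rw [ha] at hb
              apply hyxτ
              have e : x + i + τ = x + τ + i := by abel
              rw [e] at hb
              exact (add_right_cancel hb).symm
            · rw [ha] at hb
              exact hyx (add_right_cancel (add_right_cancel hb)).symm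
          have e3 : x + τ + i = x + i + τ := by abel
          have e4 : y + τ + i = y + i + τ := by abel
          rw [e3] at h2
          rw [e4] at h4
          have h6 := hH6 G L hL hL2 σ core.ne core.two X Y (x + i) (y + i) (α i) (β i)
            (fun a ha h => core.A1 a (hXA ha) (hXA h)) (fun a ha h => core.B1 a (hYB ha) (hYB h))
            hi' hj' (by omega) (by rw [eX]; exact h1) (by rw [← hτ, eX']; exact h2)
            (by rw [eY]; exact h3) (by rw [← hτ, eY']; exact h4)
          have e5 : x + i + (y + i) = x + y + (i + i) := by abel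
          rw [e5, ← hτ] at h6
          have e6 : x + y + τ + (i + i) = x + y + (i + i) + τ := by abel
          rw [e6]
          rcases h6 with h6 | h6
          · left; exact h6.trans (card_part_mono hXY _)
          · right; exact h6.trans (card_part_mono hXY _))
      have hτmem : τ ∈ univ.erase (0 : G ⧸ L) := mem_erase.2 ⟨hτ0, mem_univ _⟩
      have u1 := Finset.add_sum_erase (univ.erase (0 : G ⧸ L)) (fun x => α (x + i)) hτmem
      have u2 := Finset.add_sum_erase (univ.erase (0 : G ⧸ L)) (fun x => β (x + i)) hτmem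
      have u3 := Finset.add_sum_erase (univ.erase (0 : G ⧸ L)) (fun x => γ (x + (i + i))) hτmem
      rw [sum_add_distrib] at h
      omega
    · have h := hLvE0 (G ⧸ L) hLLR τ hτ0 hτ2 hτu p (fun x => α (x + i)) (fun x => β (x + i))
        (fun x => γ (x + (i + i))) (fun x => hαp _) (fun x => hβp _)
        (by simp only [zero_add]; omega) (by simp only [zero_add]; omega)
        (by simp only [zero_add]; omega) (by simp only [zero_add]; omega)
        hH1 hH2
        (by
          intro hx hy
          have h1 := F3 (τ + i) hx hy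
          rw [eτ] at h1
          show α (τ + i) + β (τ + i) + 1 ≤ α (0 + i) + β (0 + i) ∨
            (α (τ + i) + β (τ + i) = α (0 + i) + β (0 + i) ∧
              α (0 + i) + β (0 + i) ≤ γ (τ + (i + i)))
          rw [zero_add]
          by_contra hcon
          apply hτc
          refine ⟨hx, hy, ?_, ?_⟩ <;> omega)
      rw [sum_add_distrib] at h
      omega

end Pool.Agent.Work.MP_59976d_co
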